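import Pool.Agent.Q165.GL.Stm

/-!
# Project GL, job GL-FAR: packing on a line, seen from `y`
-/

set_option autoImplicit false

namespace Pool.Agent.Q154.GL

open Finset Pool.Agent.Q165.GL

variable {ι : Type}

lemma chi_anti (V : Views ι) (y x z : ι) : V.chi y x z = - V.chi y z x := by
  unfold Views.chi; ring

lemma chi_self (V : Views ι) (y x : ι) : V.chi y x x = 0 := by
  unfold Views.chi; ring

lemma chi_ne (V : Views ι) {y x z : ι} (hx : y ≠ x) (hz : y ≠ z) (hxz : x ≠ z) :
    V.chi y x z ≠ 0 := by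
  unfold Views.chi
  refine mul_ne_zero (mul_ne_zero (V.ha y x hx) (V.ha y z hz)) ?_
  exact sub_ne_zero.mpr (fun h => V.hr y x z hx hz hxz h.symm)

lemma chi_trans (V : Views ι) {y p x q z : ι} (h1 : 0 < V.chi y p x) (h2 : 0 < V.chi y p q)
    (h3 : 0 < V.chi y p z) (h4 : 0 < V.chi y x q) (h5 : 0 < V.chi y q z) :
    0 < V.chi y x z := by
  have hid : V.chi y x z * V.chi y p q =
      V.chi y p x * V.chi y q z + V.chi y p z * V.chi y x q := by
    unfold Views.chi; ring
  have hpos : 0 < V.chi y x z * V.chi y p q := by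
    rw [hid]
    exact add_pos (mul_pos h1 h5) (mul_pos h3 h4)
  exact (pos_iff_pos_of_mul_pos hpos).mpr h2

lemma sum_inj {α : Type} (S : Finset α) (f : α → ℕ) (hf : Set.InjOn f S) (K : ℕ) :
    2 * ∑ q ∈ S, (K - f q) ≤ (K + 1) * K := by
  classical
  have h1 : ∑ q ∈ S, (K - f q) = ∑ i ∈ S.image f, (K - i) := by
    rw [Finset.sum_image hf]
  have h2 : ∑ i ∈ S.image f, (K - i) ≤ ∑ i ∈ range (K + 1), (K - i) := by
    have h3 : ∑ i ∈ S.image f, (K - i) = ∑ i ∈ (S.image f).filter (fun i => i ∈ range (K + 1)),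
        (K - i) := by
      symm
      apply Finset.sum_filter_of_ne
      intro i _ hi
      rw [Finset.mem_range]
      omega
    rw [h3]
    apply Finset.sum_le_sum_of_subset
    intro i hi
    exact (Finset.mem_filter.mp hi).2
  have h4 : (∑ i ∈ range (K + 1), (K - i)) * 2 = (K + 1) * K := by
    have h5 : ∑ i ∈ range (K + 1), (K - i) = ∑ i ∈ range (K + 1), i := by
      have := Finset.sum_range_reflect (fun i => i) (K + 1)
      simpa using this
    rw [h5, Finset.sum_range_id_mul_two]
    simp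
  rw [h1]
  omega

theorem far : S_FAR := by
  classical
  intro ι _ _ V G y K
  -- the pairs of positive orientation
  set E : Finset (ι × ι) := univ.filter (fun q : ι × ι =>
    G.Adj q.1 q.2 ∧ q.1 ≠ y ∧ q.2 ≠ y ∧ ¬ near G y q.1 q.2) with hE
  set Ep : Finset (ι × ι) := E.filter (fun q => 0 < V.chi y q.1 q.2) with hEp
  set En : Finset (ι × ι) := E.filter (fun q => ¬ 0 < V.chi y q.1 q.2) with hEn
  have hcnt : cnt (fun q : ι × ι => G.Adj q.1 q.2 ∧ q.1 ≠ y ∧ q.2 ≠ y ∧ ¬ near G y q.1 q.2)
      = E.card := by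
    unfold cnt
    rw [hE]
    congr
  have hsplit : Ep.card + En.card = E.card :=
    Finset.card_filter_add_card_filter_not (s := E) (fun q => 0 < V.chi y q.1 q.2)
  have hEnp : En.card ≤ Ep.card := by
    apply Finset.card_le_card_of_injOn (fun q => (q.2, q.1))
    · intro q hq
      simp only [hEn, hE, Finset.coe_filter, Finset.mem_filter, Finset.mem_univ, true_and,
        Set.mem_setOf_eq] at hq
      simp only [hEp, hE, Finset.coe_filter, Finset.mem_filter, Finset.mem_univ, true_and,
        Set.mem_setOf_eq]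
      obtain ⟨⟨h1, h2, h3, h4⟩, h5⟩ := hq
      refine ⟨⟨h1.symm, h3, h2, ?_⟩, ?_⟩
      · intro h; apply h4; unfold near at h ⊢; exact h.symm
      · have hne := chi_ne V (y := y) (x := q.1) (z := q.2) (Ne.symm h2) (Ne.symm h3) h1.ne
        rw [chi_anti]
        have : V.chi y q.1 q.2 < 0 := lt_of_le_of_ne (not_lt.mp h5) hne
        linarith
    · intro q _ q' _ h
      simp only [Prod.mk.injEq] at h
      exact Prod.ext h.2 h.1
  -- the rank
  set ρ : ι × ι → ℕ := fun e =>
    ((univ.erase y).filter (fun x => 0 < V.chi y e.1 x ∧ 0 < V.chi y x e.2)).card with hρ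
  have hsum1 : ∑ e ∈ Ep, ρ e ≤ ∑ x ∈ univ.erase y, Pool.Agent.Q165.GL.far V G y x := by
    have h1 : ∑ e ∈ Ep, ρ e = ∑ x ∈ univ.erase y,
        (Ep.filter (fun e => 0 < V.chi y e.1 x ∧ 0 < V.chi y x e.2)).card := by
      simp only [hρ, Finset.card_filter]
      rw [Finset.sum_comm]
    rw [h1]
    apply Finset.sum_le_sum
    intro x hx
    unfold Pool.Agent.Q165.GL.far cnt
    apply Finset.card_le_card_of_injOn (fun q => (q.2, q.1))
    · intro q hq
      simp only [hEp, hE, Finset.coe_filter, Finset.mem_filter, Finset.mem_univ, true_and,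
        Set.mem_setOf_eq] at hq
      simp only [Finset.coe_filter, Finset.mem_filter, Finset.mem_univ, true_and,
        Set.mem_setOf_eq]
      obtain ⟨⟨⟨h1, h2, h3, h4⟩, h5⟩, h6, h7⟩ := hq
      refine ⟨h1.symm, ?_, ?_⟩
      · intro h; apply h4; unfold near at h ⊢; exact h.symm
      · refine ⟨h3, ?_, h2, ?_, h7, ?_⟩
        · intro h
          rw [h, chi_self] at h7
          exact lt_irrefl _ h7
        · intro h
          rw [h, chi_self] at h6
          exact lt_irrefl _ h6
        · rw [chi_anti]; linarith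
    · intro q _ q' _ h
      simp only [Prod.mk.injEq] at h
      exact Prod.ext h.2 h.1
  have hsum2 : 2 * ∑ e ∈ Ep, (K - ρ e) ≤ (Fintype.card ι - 1) * ((K + 1) * K) := by
    have hmap : ∀ e ∈ Ep, e.1 ∈ univ.erase y := by
      intro e he
      simp only [hEp, hE, Finset.mem_filter, Finset.mem_univ, true_and] at he
      exact Finset.mem_erase.mpr ⟨he.1.2.1, Finset.mem_univ _⟩
    rw [← Finset.sum_fiberwise_of_maps_to hmap, Finset.mul_sum]
    have hcard : (univ.erase y).card = Fintype.card ι - 1 := by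
      rw [Finset.card_erase_of_mem (Finset.mem_univ y), Finset.card_univ]
    rw [← hcard, ← smul_eq_mul, ← Finset.sum_const]
    apply Finset.sum_le_sum
    intro p hp
    apply sum_inj
    intro e he e' he' heq
    by_contra hne
    simp only [hEp, hE, Finset.coe_filter, Finset.mem_filter, Finset.mem_univ, true_and,
      Set.mem_setOf_eq] at he he'
    obtain ⟨⟨⟨h1, h2, h3, h4⟩, h5⟩, h6⟩ := he
    obtain ⟨⟨⟨k1, k2, k3, k4⟩, k5⟩, k6⟩ := he'
    have hq : e.2 ≠ e'.2 := fun h => hne (Prod.ext (h6.trans k6.symm) h)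
    -- strict monotonicity
    have key : ∀ a b : ι × ι, a.1 = p → b.1 = p → a.2 ≠ y → 0 < V.chi y a.1 a.2 →
        0 < V.chi y b.1 b.2 → 0 < V.chi y a.2 b.2 → ρ a < ρ b := by
      intro a b ha hb hay hapos hbpos hab
      simp only [hρ]
      apply Finset.card_lt_card
      rw [Finset.ssubset_iff_of_subset]
      · refine ⟨a.2, ?_, ?_⟩
        · rw [Finset.mem_filter]
          refine ⟨Finset.mem_erase.mpr ⟨hay, Finset.mem_univ _⟩, ?_, hab⟩
          rw [hb, ← ha]; exact hapos
        · rw [Finset.mem_filter]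
          rintro ⟨_, _, h⟩
          rw [chi_self] at h
          exact lt_irrefl _ h
      · intro x hx
        rw [Finset.mem_filter] at hx ⊢
        obtain ⟨hx1, hx2, hx3⟩ := hx
        rw [hb, ← ha]
        refine ⟨hx1, hx2, ?_⟩
        rw [hb, ← ha] at hbpos
        exact chi_trans V hx2 hapos hbpos hx3 hab
    rcases lt_or_gt_of_ne (chi_ne V (y := y) (x := e.2) (z := e'.2) (Ne.symm h3) (Ne.symm k3) hq)
      with hlt | hgt
    · have : 0 < V.chi y e'.2 e.2 := by rw [chi_anti]; linarith
      have := key e' e k6 h6 k3 k5 h5 this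
      omega
    · have := key e e' h6 k6 h3 h5 k5 hgt
      omega
  have hK : K * Ep.card ≤ ∑ e ∈ Ep, ρ e + ∑ e ∈ Ep, (K - ρ e) := by
    rw [← Finset.sum_add_distrib, mul_comm, ← smul_eq_mul, ← Finset.sum_const]
    apply Finset.sum_le_sum
    intro e _
    omega
  rw [hcnt]
  have hle : K * E.card ≤ 2 * (K * Ep.card) := by
    have : E.card ≤ 2 * Ep.card := by omega
    calc K * E.card ≤ K * (2 * Ep.card) := Nat.mul_le_mul_left _ this
      _ = 2 * (K * Ep.card) := by ring
  omega

end Pool.Agent.Q154.GL
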